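import Mathlib

/-!
# Counting probabilities on finite types
-/

namespace Pool.Agent.H19.SQP

open Classical in
/-- The proportion of the elements of a finite type with a property. -/
noncomputable def pr {α : Type*} [Fintype α] (p : α → Prop) : ℝ :=
  ((Finset.univ.filter p).card : ℝ) / Fintype.card α

section

variable {α β γ : Type*} [Fintype α] [Fintype β] [Fintype γ]

lemma pr_nonneg (p : α → Prop) : 0 ≤ pr p := by
  unfold pr
  positivity

lemma pr_mono {p q : α → Prop} (h : ∀ a, p a → q a) : pr p ≤ pr q := by
  classical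
  unfold pr
  gcongr
  exact fun h' => h _ h'

lemma pr_or (p q : α → Prop) : pr (fun a => p a ∨ q a) ≤ pr p + pr q := by
  classical
  unfold pr
  rw [← add_div]
  gcongr
  refine le_trans (b := ((Finset.univ.filter p ∪ Finset.univ.filter q).card : ℝ)) ?_ ?_
  · refine Nat.cast_le.mpr (Finset.card_le_card ?_)
    intro a ha
    simpa using ha
  · exact_mod_cast Finset.card_union_le _ _

lemma pr_or_le {p q r : α → Prop} {s t : ℝ} (h : ∀ a, p a → q a ∨ r a) (hq : pr q ≤ s)
    (hr : pr r ≤ t) : pr p ≤ s + t :=
  (pr_mono h).trans ((pr_or q r).trans (add_le_add hq hr))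

lemma pr_equiv (e : α ≃ β) (p : β → Prop) : pr (fun a => p (e a)) = pr p := by
  classical
  unfold pr
  rw [Fintype.card_congr e]
  congr 2
  apply Finset.card_bij (fun a _ => e a)
  · intro a ha
    simpa using ha
  · intro a _ b _ h
    exact e.injective h
  · intro b hb
    exact ⟨e.symm b, by simpa using hb, by simp⟩

lemma pr_prod (p : α × β → Prop) :
    pr p = (∑ a, pr (fun b => p (a, b))) / Fintype.card α := by
  classical
  unfold pr
  rw [← Finset.sum_div, div_div, Fintype.card_prod]
  have h : ((Finset.univ.filter p).card : ℝ)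
      = ∑ a, ((Finset.univ.filter (fun b => p (a, b))).card : ℝ) := by
    norm_cast
    simp only [Finset.card_filter]
    rw [Fintype.sum_prod_type]
  rw [h]
  push_cast
  rw [mul_comm (Fintype.card β : ℝ)]

lemma exists_le_pr [Nonempty α] (p : α × β → Prop) :
    ∃ a, pr (fun b => p (a, b)) ≤ pr p := by
  classical
  by_contra hcon
  push Not at hcon
  have hc : (0 : ℝ) < Fintype.card α := by exact_mod_cast Fintype.card_pos
  have h1 : ∑ _a : α, pr p < ∑ a, pr (fun b => p (a, b)) :=
    Finset.sum_lt_sum_of_nonempty Finset.univ_nonempty fun a _ => hcon a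
  rw [Finset.sum_const, Finset.card_univ, nsmul_eq_mul] at h1
  have h2 := pr_prod p
  rw [eq_div_iff hc.ne'] at h2
  linarith

/-- Choosing the best value of the middle variable. -/
lemma exists_choice [Nonempty β] (p : α × β × γ → Prop) :
    ∃ c : α → β, pr (fun t : α × γ => p (t.1, c t.1, t.2)) ≤ pr p := by
  classical
  have h : ∀ a, ∃ b, pr (fun x : γ => p (a, b, x)) ≤ pr (fun t : β × γ => p (a, t)) :=
    fun a => exists_le_pr (fun t : β × γ => p (a, t))
  choose c hc using h
  refine ⟨c, ?_⟩
  rw [pr_prod, pr_prod p]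
  gcongr with a _
  exact hc a

lemma pr_snd [Nonempty α] (p : β → Prop) : pr (fun t : α × β => p t.2) = pr p := by
  classical
  rw [pr_prod]
  have h : (∑ a : α, pr (fun b : β => p (a, b).2)) = Fintype.card α * pr p := by
    simp only [Finset.sum_const, Finset.card_univ, nsmul_eq_mul]
  have hc : (Fintype.card α : ℝ) ≠ 0 := by exact_mod_cast Fintype.card_ne_zero
  rw [h, mul_div_cancel_left₀ _ hc]

/-- Fubini with a bound on every section. -/
lemma pr_le_of_forall (p : α × β → Prop) {s : ℝ} (hs : 0 ≤ s)
    (h : ∀ a, pr (fun b => p (a, b)) ≤ s) : pr p ≤ s := by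
  classical
  rw [pr_prod]
  rcases isEmpty_or_nonempty α with hα | hα
  · simpa using hs
  · have hc : (0 : ℝ) < Fintype.card α := by exact_mod_cast Fintype.card_pos
    rw [div_le_iff₀ hc]
    calc ∑ a, pr (fun b => p (a, b)) ≤ ∑ _a : α, s := Finset.sum_le_sum fun a _ => h a
      _ = s * Fintype.card α := by
        rw [Finset.sum_const, Finset.card_univ, nsmul_eq_mul, mul_comm]

lemma exists_not [Nonempty α] {p : α → Prop} (h : pr p < 1) : ∃ a, ¬ p a := by
  classical
  by_contra hcon
  push Not at hcon
  have h1 : pr p = 1 := by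
    unfold pr
    have h2 : Finset.univ.filter p = Finset.univ := by
      ext a
      simp [hcon a]
    have hc : (Fintype.card α : ℝ) ≠ 0 := by exact_mod_cast Fintype.card_ne_zero
    rw [h2, Finset.card_univ, div_self hc]
  linarith

/-- Invariance under injective self maps. -/
lemma pr_self (e : α → α) (he : Function.Injective e) (p : α → Prop) :
    pr (fun a => p (e a)) = pr p :=
  pr_equiv (Equiv.ofBijective e (Finite.injective_iff_bijective.mp he)) p

/-- Marginals. -/
lemma pr_marg [Nonempty α] (e : α × β → α × β) (he : Function.Injective e) (q : β → Prop) :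
    pr (fun t : α × β => q (e t).2) = pr q := by
  rw [pr_self e he (fun t => q t.2), pr_snd]

/-- A sum of a `{0,1}`-valued function. -/
lemma pr_eq_sum [DecidableEq α] (p : α → Prop) [DecidablePred p] :
    pr p = (∑ a, if p a then (1 : ℝ) else 0) / Fintype.card α := by
  unfold pr
  congr 1
  rw [Finset.sum_boole]
  congr

end

end Pool.Agent.H19.SQP
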