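import Mathlib
import Pool.Agent.H19.SQP.Pr

/-!
# Exact cocycles on vector spaces over the field with two elements (section 8e)
-/

namespace Pool.Agent.H19.SQP

lemma zmod2_cases : ∀ a : ZMod 2, a = 0 ∨ a = 1 := by decide

section Sym

variable {H : Type*} [AddCommGroup H] [Module (ZMod 2) H] {Γ : Type*} [CommGroup Γ]

lemma add_self_zero (v : H) : v + v = 0 := by
  have h : (2 : ZMod 2) • v = v + v := two_smul _ v
  rw [← h]
  have : (2 : ZMod 2) = 0 := rfl
  rw [this, zero_smul]

lemma neg_eq_self' (v : H) : -v = v := by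
  rw [neg_eq_iff_add_eq_zero]
  exact add_self_zero v

/-- One extension step. -/
lemma ext_step (W : H → H → Γ) (hsym : ∀ y z, W y z = W z y)
    (hc : ∀ x y z, W x y * W (x + y) z = W y z * W x (y + z))
    (K : Submodule (ZMod 2) H) (w : H → Γ)
    (hw : ∀ y ∈ K, ∀ z ∈ K, W y z = w y * w z * (w (y + z))⁻¹)
    (v : H) (hv : v ∉ K) (ω : Γ) (hω : ω ^ 2 = W v v * w 0) :
    ∃ w' : H → Γ, (∀ x ∈ K, w' x = w x) ∧ (∀ k ∈ K, w' (k + v) = w k * ω * (W k v)⁻¹) ∧
      ∀ y ∈ K ⊔ Submodule.span (ZMod 2) {v}, ∀ z ∈ K ⊔ Submodule.span (ZMod 2) {v},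
        W y z = w' y * w' z * (w' (y + z))⁻¹ := by
  classical
  have hvK : ∀ k ∈ K, k + v ∉ K := by
    intro k hk h
    apply hv
    have := K.sub_mem h hk
    simpa using this
  let w' : H → Γ := fun x => if x ∈ K then w x else w (x + v) * ω * (W (x + v) v)⁻¹
  have h1 : ∀ x ∈ K, w' x = w x := fun x hx => if_pos hx
  have h2 : ∀ k ∈ K, w' (k + v) = w k * ω * (W k v)⁻¹ := by
    intro k hk
    change (if k + v ∈ K then w (k + v) else w (k + v + v) * ω * (W (k + v + v) v)⁻¹) = _
    rw [if_neg (hvK k hk), add_assoc, add_self_zero, add_zero]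
  have hmem : ∀ y ∈ K ⊔ Submodule.span (ZMod 2) {v}, ∃ k ∈ K, y = k ∨ y = k + v := by
    intro y hy
    obtain ⟨k, hk, u, hu, rfl⟩ := Submodule.mem_sup.mp hy
    obtain ⟨a, rfl⟩ := Submodule.mem_span_singleton.mp hu
    refine ⟨k, hk, ?_⟩
    rcases zmod2_cases a with rfl | rfl
    · left; simp
    · right; simp
  have h00 : ∀ k ∈ K, W 0 k = w 0 := by
    intro k hk
    rw [hw 0 K.zero_mem k hk, zero_add, mul_inv_cancel_right]
  have c1 : ∀ k ∈ K, ∀ k' ∈ K, W k (k' + v) = w' k * w' (k' + v) * (w' (k + (k' + v)))⁻¹ := by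
    intro k hk k' hk'
    have e := hc k k' v
    rw [← add_assoc, h1 k hk, h2 k' hk', h2 (k + k') (K.add_mem hk hk')]
    rw [hw k hk k' hk'] at e
    have e2 : W k (k' + v) = (W k' v)⁻¹ * (w k * w k' * (w (k + k'))⁻¹ * W (k + k') v) := by
      rw [e, inv_mul_cancel_left]
    rw [e2, mul_inv, mul_inv, inv_inv]
    have : w k * (w k' * ω * (W k' v)⁻¹) * ((w (k + k'))⁻¹ * ω⁻¹ * W (k + k') v)
        = (W k' v)⁻¹ * (w k * w k' * (w (k + k'))⁻¹ * W (k + k') v) * (ω * ω⁻¹) := by
      ac_rfl
    rw [this, mul_inv_cancel, mul_one]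
  refine ⟨w', h1, h2, ?_⟩
  intro y hy z hz
  obtain ⟨k, hk, hy'⟩ := hmem y hy
  obtain ⟨k', hk', hz'⟩ := hmem z hz
  rcases hy' with rfl | rfl <;> rcases hz' with rfl | rfl
  · rw [h1 y hk, h1 z hk', h1 _ (K.add_mem hk hk')]
    exact hw y hk z hk'
  · exact c1 y hk k' hk'
  · rw [hsym, c1 z hk' k hk, mul_comm (w' z), add_comm z]
  · have e1 := hc k v (k' + v)
    have e2 := hc v v k'
    have a1 : v + (k' + v) = k' := by
      rw [add_comm k', ← add_assoc, add_self_zero, zero_add]
    have a2 : k + v + (k' + v) = k + k' := by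
      rw [add_assoc, a1]
    rw [a1] at e1
    rw [add_self_zero, h00 k' hk', add_comm v k', ← hω] at e2
    rw [a2, h1 _ (K.add_mem hk hk'), h2 k hk, h2 k' hk']
    have e3 : W (k + v) (k' + v) = (W k v)⁻¹ * (W v (k' + v) * W k k') := by
      rw [← e1, inv_mul_cancel_left]
    have e4 : W v (k' + v) = (W v k')⁻¹ * ω ^ 2 := by
      rw [e2, inv_mul_cancel_left]
    rw [e3, e4, hw k hk k' hk', hsym v k', pow_two]
    ac_rfl

/-- Symmetric cocycles with values in a commutative group with square roots are coboundaries. -/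
theorem sym_cob [Finite H] (hΓ : ∀ c : Γ, ∃ ω, ω ^ 2 = c) (W : H → H → Γ)
    (hsym : ∀ y z, W y z = W z y)
    (hc : ∀ x y z, W x y * W (x + y) z = W y z * W x (y + z)) :
    ∃ w : H → Γ, (∀ y z, W y z = w y * w z * (w (y + z))⁻¹) ∧
      ∀ N : ℕ, (∀ y z, W y z ^ N = 1) → ∀ y, w y ^ (2 * N) = 1 := by
  classical
  let Q : Submodule (ZMod 2) H → Prop := fun K => ∃ w : H → Γ,
    (∀ y ∈ K, ∀ z ∈ K, W y z = w y * w z * (w (y + z))⁻¹) ∧
      ∀ N : ℕ, (∀ y z, W y z ^ N = 1) → ∀ y ∈ K, w y ^ (2 * N) = 1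
  have hfin : Finite (Submodule (ZMod 2) H) := inferInstance
  have hne : {K | Q K}.Nonempty := by
    refine ⟨⊥, fun _ => W 0 0, ?_, ?_⟩
    · intro y hy z hz
      rw [Submodule.mem_bot] at hy hz
      subst hy
      subst hz
      rw [mul_inv_cancel_right]
    · intro N hN y _
      rw [mul_comm, pow_mul, hN, one_pow]
  obtain ⟨K, hK⟩ := (Set.toFinite {K | Q K}).exists_maximal hne
  obtain ⟨w, hw, hN⟩ := hK.prop
  have htop : K = ⊤ := by
    by_contra hcon
    obtain ⟨v, hv⟩ : ∃ v, v ∉ K := by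
      by_contra hall
      push Not at hall
      exact hcon (Submodule.eq_top_iff'.mpr hall)
    obtain ⟨ω, hω⟩ := hΓ (W v v * w 0)
    obtain ⟨w', h1, h2, h3⟩ := ext_step W hsym hc K w hw v hv ω hω
    have hw0 : w 0 = W 0 0 := by
      rw [hw 0 K.zero_mem 0 K.zero_mem, zero_add, mul_inv_cancel_right]
    have hQ : Q (K ⊔ Submodule.span (ZMod 2) {v}) := by
      refine ⟨w', h3, ?_⟩
      intro N hN' y hy
      obtain ⟨k, hk, u, hu, rfl⟩ := Submodule.mem_sup.mp hy
      obtain ⟨a, rfl⟩ := Submodule.mem_span_singleton.mp hu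
      rcases zmod2_cases a with rfl | rfl
      · rw [zero_smul, add_zero, h1 k hk]
        exact hN N hN' k hk
      · rw [one_smul, h2 k hk, mul_pow, mul_pow, hN N hN' k hk, inv_pow, pow_mul, hω, mul_pow,
          hN', hw0, hN', mul_comm 2 N, pow_mul, hN']
        simp
    have hle : K ⊔ Submodule.span (ZMod 2) {v} ≤ K := hK.le_of_ge hQ le_sup_left
    apply hv
    apply hle
    exact Submodule.mem_sup_right (Submodule.mem_span_singleton_self v)
  subst htop
  exact ⟨w, fun y z => hw y trivial z trivial, fun N hN' y => hN N hN' y trivial⟩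

end Sym

section Bil

variable {H : Type*} [AddCommGroup H] [Module (ZMod 2) H] [Finite H]

/-- Alternating forms come from bilinear forms. -/
theorem alt_eq (b : H →ₗ[ZMod 2] H →ₗ[ZMod 2] ZMod 2) (hb : ∀ y, b y y = 0) :
    ∃ m : H →ₗ[ZMod 2] H →ₗ[ZMod 2] ZMod 2, ∀ y z, m y z + m z y = b y z := by
  classical
  have hfin : Module.Finite (ZMod 2) H := Module.Finite.of_finite
  let B := Module.finBasis (ZMod 2) H
  have hsym : ∀ y z, b y z = b z y := by
    intro y z
    have h := hb (y + z)
    simp only [map_add, LinearMap.add_apply, hb, zero_add, add_zero] at h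
    have h2 : b y z = -b z y := by
      rw [eq_neg_iff_add_eq_zero, add_comm]
      exact h
    rw [h2]
    exact ZMod.neg_eq_self_mod_two _
  let m : H →ₗ[ZMod 2] H →ₗ[ZMod 2] ZMod 2 :=
    LinearMap.mk₂ (ZMod 2) (fun y z => ∑ i, ∑ j,
      if i < j then b (B i) (B j) * B.repr y i * B.repr z j else 0)
      (by
        intro y y' z
        rw [← Finset.sum_add_distrib]
        refine Finset.sum_congr rfl fun i _ => ?_
        rw [← Finset.sum_add_distrib]
        refine Finset.sum_congr rfl fun j _ => ?_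
        split_ifs
        · rw [map_add, Finsupp.add_apply]; ring
        · rw [add_zero])
      (by
        intro c y z
        rw [smul_eq_mul, Finset.mul_sum]
        refine Finset.sum_congr rfl fun i _ => ?_
        rw [Finset.mul_sum]
        refine Finset.sum_congr rfl fun j _ => ?_
        split_ifs
        · rw [map_smul, Finsupp.smul_apply, smul_eq_mul]; ring
        · rw [mul_zero])
      (by
        intro y z z'
        rw [← Finset.sum_add_distrib]
        refine Finset.sum_congr rfl fun i _ => ?_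
        rw [← Finset.sum_add_distrib]
        refine Finset.sum_congr rfl fun j _ => ?_
        split_ifs
        · rw [map_add, Finsupp.add_apply]; ring
        · rw [add_zero])
      (by
        intro c y z
        rw [smul_eq_mul, Finset.mul_sum]
        refine Finset.sum_congr rfl fun i _ => ?_
        rw [Finset.mul_sum]
        refine Finset.sum_congr rfl fun j _ => ?_
        split_ifs
        · rw [map_smul, Finsupp.smul_apply, smul_eq_mul]; ring
        · rw [mul_zero])
  refine ⟨m, fun y z => ?_⟩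
  have e1 : m y z = ∑ i, ∑ j, if i < j then b (B i) (B j) * B.repr y i * B.repr z j else 0 := rfl
  have e2 : m z y = ∑ i, ∑ j, if j < i then b (B i) (B j) * B.repr y i * B.repr z j else 0 := by
    have : m z y = ∑ i, ∑ j, if i < j then b (B i) (B j) * B.repr z i * B.repr y j else 0 := rfl
    rw [this, Finset.sum_comm]
    refine Finset.sum_congr rfl fun i _ => Finset.sum_congr rfl fun j _ => ?_
    split_ifs
    · rw [hsym (B j) (B i)]; ring
    · rfl
  have e3 : b y z = ∑ i, ∑ j, b (B i) (B j) * B.repr y i * B.repr z j := by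
    have e : b y z = b (∑ i, B.repr y i • B i) (∑ j, B.repr z j • B j) := by
      rw [B.sum_repr, B.sum_repr]
    rw [e, map_sum b, LinearMap.sum_apply]
    refine Finset.sum_congr rfl fun i _ => ?_
    rw [map_smul b, LinearMap.smul_apply, map_sum, smul_eq_mul, Finset.mul_sum]
    refine Finset.sum_congr rfl fun j _ => ?_
    rw [map_smul, smul_eq_mul]
    ring
  rw [e1, e2, e3, ← Finset.sum_add_distrib]
  refine Finset.sum_congr rfl fun i _ => ?_
  rw [← Finset.sum_add_distrib]
  refine Finset.sum_congr rfl fun j _ => ?_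
  rcases lt_trichotomy i j with hij | hij | hij
  · rw [if_pos hij, if_neg (not_lt.mpr hij.le), add_zero]
  · subst hij
    rw [if_neg (lt_irrefl i), hb]
    ring
  · rw [if_pos hij, if_neg (not_lt.mpr hij.le), zero_add]

end Bil

end Pool.Agent.H19.SQP
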