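import Mathlib
import Pool.Agent.H19.SQP.Alg

/-!
# Exact cocycles with values in `ZMod 4` (section 8e)
-/

namespace Pool.Agent.H19.SQP

/-- Doubling from `ZMod 2` to `ZMod 4`. -/
def dbl (a : ZMod 2) : ZMod 4 := if a = 0 then 0 else 2

lemma dbl_add : ∀ a b : ZMod 2, dbl (a + b) = dbl a + dbl b := by decide

lemma dbl_inj : ∀ a b : ZMod 2, dbl a = dbl b → a = b := by decide

lemma exists_dbl : ∀ c : ZMod 4, c + c = 0 → ∃ a, c = dbl a := by decide

/-- The sign of an element of `ZMod 2`, on the circle. -/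
noncomputable def sgnC (a : ZMod 2) : Circle := ZMod.toCircle (dbl a)

lemma sgnC_zero : sgnC 0 = 1 := by
  unfold sgnC
  have : dbl 0 = 0 := by decide
  rw [this, AddChar.map_zero_eq_one]

lemma sgnC_add (a b : ZMod 2) : sgnC (a + b) = sgnC a * sgnC b := by
  unfold sgnC
  rw [dbl_add, AddChar.map_add_eq_mul]

lemma sgnC_sq (a : ZMod 2) : sgnC a ^ 2 = 1 := by
  rw [pow_two, ← sgnC_add]
  have : ∀ a : ZMod 2, a + a = 0 := by decide
  rw [this, sgnC_zero]

lemma sgnC_inv (a : ZMod 2) : (sgnC a)⁻¹ = sgnC a := by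
  rw [inv_eq_iff_mul_eq_one, ← pow_two, sgnC_sq]

lemma sgnC_coe (a : ZMod 2) : (sgnC a : ℂ) = if a = 0 then 1 else -1 := by
  unfold sgnC dbl
  split_ifs with h
  · rw [AddChar.map_zero_eq_one]
    rfl
  · have h2 : (2 : ZMod 4) = ((2 : ℕ) : ZMod 4) := rfl
    rw [h2, ZMod.toCircle_natCast]
    have : 2 * (Real.pi : ℂ) * Complex.I * ((2 : ℕ) : ℂ) / ((4 : ℕ) : ℂ)
        = Real.pi * Complex.I := by
      push_cast
      ring
    rw [this, Complex.exp_pi_mul_I]

lemma circle_sqrt (c : Circle) : ∃ ω : Circle, ω ^ 2 = c := by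
  refine ⟨Circle.exp (Complex.arg c / 2), ?_⟩
  rw [← Circle.exp_nsmul]
  have : (2 : ℕ) • (Complex.arg (c : ℂ) / 2) = Complex.arg (c : ℂ) := by
    rw [nsmul_eq_mul]
    push_cast
    ring
  rw [this, Circle.exp_arg]

section

variable {H : Type*} [AddCommGroup H] [Module (ZMod 2) H]

/-- An additive map between vector spaces over the field with two elements is linear. -/
def linOfAdd {V : Type*} [AddCommGroup V] [Module (ZMod 2) V] (f : H → V)
    (hf : ∀ x y, f (x + y) = f x + f y) : H →ₗ[ZMod 2] V where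
  toFun := f
  map_add' := hf
  map_smul' := by
    intro a x
    have h0 : f 0 = 0 := by
      have := hf 0 0
      rw [add_zero] at this
      exact left_eq_add.mp this
    rcases zmod2_cases a with rfl | rfl
    · rw [zero_smul, h0, RingHom.id_apply, zero_smul]
    · rw [one_smul, RingHom.id_apply, one_smul]

@[simp] lemma linOfAdd_apply {V : Type*} [AddCommGroup V] [Module (ZMod 2) V] (f : H → V)
    (hf : ∀ x y, f (x + y) = f x + f y) (x : H) : linOfAdd f hf x = f x := rfl

/-- A biadditive map is bilinear. -/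
def bilOfAdd {V : Type*} [AddCommGroup V] [Module (ZMod 2) V] (f : H → H → V)
    (h1 : ∀ x y z, f (x + y) z = f x z + f y z) (h2 : ∀ x y z, f x (y + z) = f x y + f x z) :
    H →ₗ[ZMod 2] H →ₗ[ZMod 2] V :=
  linOfAdd (fun x => linOfAdd (f x) (h2 x)) (by
    intro x y
    ext z
    exact h1 x y z)

@[simp] lemma bilOfAdd_apply {V : Type*} [AddCommGroup V] [Module (ZMod 2) V] (f : H → H → V)
    (h1 : ∀ x y z, f (x + y) z = f x z + f y z) (h2 : ∀ x y z, f x (y + z) = f x y + f x z)
    (x y : H) : bilOfAdd f h1 h2 x y = f x y := rfl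

omit [Module (ZMod 2) H] in
lemma coc_comm_add {A : Type*} [AddCommGroup A] {D : H → H → A}
    (hD : ∀ x y z, D x y + D (x + y) z = D y z + D x (y + z)) (x y z : H) :
    D (x + y) z - D z (x + y) = (D x z - D z x) + (D y z - D z y) := by
  have e1 := hD x y z
  have e2 := hD z x y
  have e3 := hD x z y
  have e2' : D z (x + y) = D z x + D (x + z) y - D x y := by
    rw [add_comm x z, e2]; abel
  have e1' : D (x + y) z = D y z + D x (y + z) - D x y := by
    rw [← e1]; abel
  have e3' : D x (y + z) = D x z + D (x + z) y - D z y := by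
    rw [add_comm y z, e3]; abel
  rw [e1', e2', e3']
  abel

variable [Finite H]

/-- Symmetric bilinear forms, as signs, are coboundaries of functions with values in the fourth
roots of unity. -/
theorem sym_form (σ : H → H → ZMod 2) (hs : ∀ x y, σ x y = σ y x)
    (h1 : ∀ x y z, σ (x + y) z = σ x z + σ y z) :
    ∃ w : H → Circle, (∀ y z, sgnC (σ y z) = w y * w z * (w (y + z))⁻¹) ∧ ∀ y, w y ^ 4 = 1 := by
  have h2 : ∀ x y z, σ x (y + z) = σ x y + σ x z := by
    intro x y z
    rw [hs, h1, hs y, hs z]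
  obtain ⟨w, hw, hN⟩ := sym_cob circle_sqrt (fun y z => sgnC (σ y z))
    (fun y z => by rw [hs]) (fun x y z => by
      rw [← sgnC_add, ← sgnC_add, h1, h2]
      congr 1
      abel)
  exact ⟨w, hw, hN 2 fun y z => sgnC_sq _⟩

/-- Exact cocycles with values in `ZMod 4`. -/
theorem exact_alg (D : H → H → ZMod 4)
    (hD : ∀ x y z, D x y + D (x + y) z = D y z + D x (y + z)) :
    ∃ (m : H →ₗ[ZMod 2] H →ₗ[ZMod 2] ZMod 2) (w : H → Circle),
      ∀ y z, ZMod.toCircle (D y z) = sgnC (m y z) * (w y * w z * (w (y + z))⁻¹) := by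
  classical
  have hadd := coc_comm_add hD
  have h0 : ∀ z, D 0 z - D z 0 = 0 := by
    intro z
    have := hadd 0 0 z
    rw [add_zero] at this
    exact left_eq_add.mp this
  have htwo : ∀ y z, (D y z - D z y) + (D y z - D z y) = 0 := by
    intro y z
    rw [← hadd y y z, add_self_zero, h0]
  choose b hb using fun y z => exists_dbl _ (htwo y z)
  have hb1 : ∀ x y z, b (x + y) z = b x z + b y z := by
    intro x y z
    apply dbl_inj
    rw [dbl_add, ← hb, ← hb, ← hb, hadd]
  have hsym : ∀ y z, b y z = b z y := by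
    intro y z
    apply dbl_inj
    rw [← hb, ← hb, ← neg_sub (D y z), eq_neg_iff_add_eq_zero, htwo]
  have hb2 : ∀ x y z, b x (y + z) = b x y + b x z := by
    intro x y z
    rw [hsym, hb1, hsym y, hsym z]
  have hbd : ∀ y, b y y = 0 := by
    intro y
    apply dbl_inj
    rw [← hb, sub_self]
    decide
  obtain ⟨m, hm⟩ := alt_eq (bilOfAdd b hb1 hb2) (by simpa using hbd)
  have hm' : ∀ y z, m y z + m z y = b y z := fun y z => hm y z
  obtain ⟨w, hw, -⟩ := sym_cob circle_sqrt (fun y z => ZMod.toCircle (D y z - dbl (m y z)))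
    (by
      intro y z
      congr 1
      rw [sub_eq_sub_iff_sub_eq_sub, hb, ← hm', dbl_add]
      have : ∀ a b : ZMod 2, dbl a + dbl b = dbl a - dbl b := by decide
      exact this _ _)
    (by
      intro x y z
      simp only [← AddChar.map_add_eq_mul]
      congr 1
      have e := hD x y z
      rw [map_add, map_add, LinearMap.add_apply, dbl_add, dbl_add]
      have e2 : D x y - dbl (m x y) + (D (x + y) z - (dbl (m x z) + dbl (m y z)))
        = D x y + D (x + y) z - (dbl (m x y) + dbl (m x z) + dbl (m y z)) := by abel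
      rw [e2, e]
      abel)
  refine ⟨m, w, fun y z => ?_⟩
  rw [← hw, sgnC, ← AddChar.map_add_eq_mul]
  congr 1
  abel

end

end Pool.Agent.H19.SQP
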