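import Mathlib
import Pool.Agent.H19.SQP.Alg2

/-!
# The trilinear bound (section 11)
-/

namespace Pool.Agent.H19.SQP

open scoped ComplexConjugate

/-- The sign of an element of `ZMod 2`. -/
def sg (a : ZMod 2) : ℂ := if a = 0 then 1 else -1

lemma sg_eq_coe (a : ZMod 2) : sg a = (sgnC a : ℂ) := (sgnC_coe a).symm

lemma sg_add (a b : ZMod 2) : sg (a + b) = sg a * sg b := by
  rw [sg_eq_coe, sg_eq_coe, sg_eq_coe, sgnC_add, Circle.coe_mul]

lemma norm_sg (a : ZMod 2) : ‖sg a‖ = 1 := by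
  rw [sg_eq_coe, Circle.norm_coe]

lemma conj_sg (a : ZMod 2) : conj (sg a) = sg a := by
  unfold sg
  split_ifs <;> simp

lemma sg_zero : sg 0 = 1 := if_pos rfl

lemma sg_one : sg 1 = -1 := if_neg one_ne_zero

section

variable {H : Type*} [AddCommGroup H] [Module (ZMod 2) H] [Fintype H]

omit [Module (ZMod 2) H] in
lemma sum_sg (φ : H → ZMod 2) (hφ : ∀ x y, φ (x + y) = φ x + φ y) [Decidable (∀ x, φ x = 0)] :
    ∑ x, sg (φ x) = if ∀ x, φ x = 0 then (Fintype.card H : ℂ) else 0 := by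
  split_ifs with h
  · simp [h, sg_zero]
  · push Not at h
    obtain ⟨v, hv⟩ := h
    have hv1 : φ v = 1 := (zmod2_cases _).resolve_left hv
    have e : ∑ x, sg (φ x) = ∑ x, sg (φ (x + v)) :=
      (Equiv.sum_comp (Equiv.addRight v) (fun x => sg (φ x))).symm
    have e2 : ∑ x, sg (φ (x + v)) = - ∑ x, sg (φ x) := by
      rw [← Finset.sum_neg_distrib]
      refine Finset.sum_congr rfl fun x _ => ?_
      rw [hφ, sg_add, hv1, sg_one, mul_neg_one]
    rw [e2] at e
    exact self_eq_neg.mp e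

omit [AddCommGroup H] [Module (ZMod 2) H] in
/-- Cauchy-Schwarz against a bounded function. -/
lemma cs_bounded (a g : H → ℂ) (ha : ∀ x, ‖a x‖ ≤ 1) :
    ‖∑ x, a x * g x‖ ^ 2 ≤ Fintype.card H * ∑ x, ‖g x‖ ^ 2 := by
  have h1 : ‖∑ x, a x * g x‖ ≤ ∑ x, ‖g x‖ := by
    refine (norm_sum_le _ _).trans (Finset.sum_le_sum fun x _ => ?_)
    rw [norm_mul]
    exact mul_le_of_le_one_left (norm_nonneg _) (ha x)
  calc ‖∑ x, a x * g x‖ ^ 2 ≤ (∑ x, ‖g x‖) ^ 2 := by gcongr
    _ ≤ _ := by
      have := sq_sum_le_card_mul_sum_sq (s := (Finset.univ : Finset H)) (f := fun x => ‖g x‖)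
      simpa using this

omit [AddCommGroup H] [Module (ZMod 2) H] in
lemma normSq_sum (g : H → ℂ) :
    ((‖∑ x, g x‖ ^ 2 : ℝ) : ℂ) = ∑ x, ∑ y, g x * conj (g y) := by
  rw [← Finset.sum_mul_sum, ← map_sum, Complex.mul_conj, Complex.normSq_eq_norm_sq]

/-- Bilinear exponential sums. -/
theorem bil_bound (B : H →ₗ[ZMod 2] H →ₗ[ZMod 2] ZMod 2) (hB : ∀ x y, B x y = B y x)
    (α β : H → ℂ) (hα : ∀ x, ‖α x‖ ≤ 1) (hβ : ∀ x, ‖β x‖ ≤ 1) :
    ‖∑ x, ∑ y, α x * β y * sg (B x y)‖ ^ 2
      ≤ Fintype.card H ^ 3 * Nat.card {x : H // ∀ y, B x y = 0} := by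
  classical
  set N : ℝ := (Fintype.card H : ℝ) with hN
  have e1 : ∑ x, ∑ y, α x * β y * sg (B x y) = ∑ x, α x * ∑ y, β y * sg (B x y) := by
    refine Finset.sum_congr rfl fun x _ => ?_
    rw [Finset.mul_sum]
    exact Finset.sum_congr rfl fun y _ => by ring
  rw [e1]
  refine (cs_bounded _ _ hα).trans ?_
  have e2 : ((∑ x, ‖∑ y, β y * sg (B x y)‖ ^ 2 : ℝ) : ℂ)
      = ∑ y, ∑ z, β y * conj (β z) * (if ∀ x, B (y + z) x = 0 then (Fintype.card H : ℂ) else 0) := by
    push_cast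
    have : ∀ x, ((‖∑ y, β y * sg (B x y)‖ : ℂ)) ^ 2
        = ∑ y, ∑ z, β y * conj (β z) * sg (B (y + z) x) := by
      intro x
      have h := normSq_sum (fun y => β y * sg (B x y))
      rw [← Complex.ofReal_pow, h]
      refine Finset.sum_congr rfl fun y _ => Finset.sum_congr rfl fun z _ => ?_
      rw [map_mul, conj_sg, hB (y + z) x, map_add, sg_add]
      ring
    simp only [this]
    rw [Finset.sum_comm]
    refine Finset.sum_congr rfl fun y _ => ?_
    rw [Finset.sum_comm]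
    refine Finset.sum_congr rfl fun z _ => ?_
    rw [← Finset.mul_sum, sum_sg (fun x => B (y + z) x) (fun a b => map_add _ a b)]
  have e3 : ∑ x, ‖∑ y, β y * sg (B x y)‖ ^ 2
      ≤ N * (N * Nat.card {x : H // ∀ y, B x y = 0}) := by
    have h1 : ∑ x, ‖∑ y, β y * sg (B x y)‖ ^ 2
        = ‖((∑ x, ‖∑ y, β y * sg (B x y)‖ ^ 2 : ℝ) : ℂ)‖ := by
      rw [Complex.norm_real, Real.norm_of_nonneg]
      positivity
    rw [h1, e2]
    calc _ ≤ ∑ y : H, ∑ z : H, (if ∀ x, B (y + z) x = 0 then N else 0) := by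
          refine (norm_sum_le _ _).trans (Finset.sum_le_sum fun y _ => ?_)
          refine (norm_sum_le _ _).trans (Finset.sum_le_sum fun z _ => ?_)
          rw [norm_mul, norm_mul]
          have hb : ‖β y‖ * ‖(starRingEnd ℂ) (β z)‖ ≤ 1 := by
            rw [RCLike.norm_conj]
            exact mul_le_one₀ (hβ y) (norm_nonneg _) (hβ z)
          split_ifs
          · rw [Complex.norm_natCast]
            exact mul_le_of_le_one_left (Nat.cast_nonneg _) hb
          · simp
      _ = ∑ _y : H, N * Nat.card {x : H // ∀ y, B x y = 0} := by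
          refine Finset.sum_congr rfl fun y _ => ?_
          have hs : (∑ z, if ∀ (x : H), (B (y + z)) x = 0 then N else 0)
              = ∑ z, if ∀ (x : H), B z x = 0 then N else 0 :=
            Equiv.sum_comp (Equiv.addLeft y) (fun w => if ∀ x, B w x = 0 then N else 0)
          rw [hs, ← Finset.sum_filter, Finset.sum_const, nsmul_eq_mul, mul_comm, Nat.card_eq_fintype_card,
            Fintype.card_subtype]
      _ = _ := by
          rw [Finset.sum_const, nsmul_eq_mul, Finset.card_univ]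
  calc N * ∑ x, ‖∑ y, β y * sg (B x y)‖ ^ 2
      ≤ N * (N * (N * Nat.card {x : H // ∀ y, B x y = 0})) := by gcongr
    _ = _ := by ring

/-- Lemma P. -/
theorem tri_bound (L : H →ₗ[ZMod 2] H →ₗ[ZMod 2] ZMod 2) (a b c : H → ℂ)
    (ha : ∀ x, ‖a x‖ ≤ 1) (hb : ∀ x, ‖b x‖ ≤ 1) (hc : ∀ x, ‖c x‖ ≤ 1) :
    ‖∑ h, ∑ k, a h * b k * c (h + k) * sg (L h k)‖ ^ 4
      ≤ Fintype.card H ^ 7 * Nat.card {x : H // ∀ y, L x y + L y x = 0} := by
  classical
  set N : ℝ := (Fintype.card H : ℝ) with hN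
  set R : ℝ := (Nat.card {x : H // ∀ y, L x y + L y x = 0} : ℝ) with hR
  have e1 : ∑ h, ∑ k, a h * b k * c (h + k) * sg (L h k)
      = ∑ h, a h * ∑ k, b k * c (h + k) * sg (L h k) := by
    refine Finset.sum_congr rfl fun x _ => ?_
    rw [Finset.mul_sum]
    exact Finset.sum_congr rfl fun y _ => by ring
  have e2 : ((∑ h, ‖∑ k, b k * c (h + k) * sg (L h k)‖ ^ 2 : ℝ) : ℂ)
      = ∑ z, ∑ k, ∑ k', (b k * conj (c (z + k)) * sg (L z k + L k k))
        * (conj (b k') * c (z + k') * sg (L z k' + L k' k')) * sg ((L + L.flip) k k') := by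
    push_cast
    have h1 : ∀ h, ((‖∑ k, b k * c (h + k) * sg (L h k)‖ : ℂ)) ^ 2
        = ∑ k, ∑ k', b k * c (h + k) * sg (L h k) * conj (b k' * c (h + k') * sg (L h k')) := by
      intro h
      have h := normSq_sum (fun k => b k * c (h + k) * sg (L h k))
      rw [← Complex.ofReal_pow, h]
    simp only [h1]
    rw [Finset.sum_comm]
    rw [Finset.sum_comm (f := fun z k => ∑ k', (b k * conj (c (z + k)) * sg (L z k + L k k))
        * (conj (b k') * c (z + k') * sg (L z k' + L k' k')) * sg ((L + L.flip) k k'))]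
    refine Finset.sum_congr rfl fun k _ => ?_
    rw [Finset.sum_comm]
    rw [Finset.sum_comm (f := fun z k' => (b k * conj (c (z + k)) * sg (L z k + L k k))
        * (conj (b k') * c (z + k') * sg (L z k' + L k' k')) * sg ((L + L.flip) k k'))]
    refine Finset.sum_congr rfl fun k' _ => ?_
    rw [← Equiv.sum_comp (Equiv.addRight (k + k'))]
    refine Finset.sum_congr rfl fun z _ => ?_
    simp only [Equiv.coe_addRight]
    have a1 : z + (k + k') + k = z + k' := by
      rw [add_comm k k', add_assoc, add_assoc, add_self_zero, add_zero]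
    have a2 : z + (k + k') + k' = z + k := by
      rw [add_assoc, add_assoc, add_self_zero, add_zero]
    rw [a1, a2, map_mul, map_mul, conj_sg]
    have a3 : sg (L (z + (k + k')) k) * sg (L (z + (k + k')) k')
        = sg (L z k + L k k) * sg (L z k' + L k' k') * sg ((L + L.flip) k k') := by
      rw [← sg_add, ← sg_add, ← sg_add]
      congr 1
      simp only [map_add, LinearMap.add_apply, LinearMap.flip_apply]
      ring
    calc b k * c (z + k') * sg (L (z + (k + k')) k)
          * (conj (b k') * conj (c (z + k)) * sg (L (z + (k + k')) k'))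
        = b k * c (z + k') * (conj (b k') * conj (c (z + k)))
          * (sg (L (z + (k + k')) k) * sg (L (z + (k + k')) k')) := by ring
      _ = _ := by rw [a3]; ring
  have hR' : Nat.card {x : H // ∀ y, (L + L.flip) x y = 0}
      = Nat.card {x : H // ∀ y, L x y + L y x = 0} := rfl
  have h3 : ∀ z, ‖∑ k, ∑ k', (b k * conj (c (z + k)) * sg (L z k + L k k))
        * (conj (b k') * c (z + k') * sg (L z k' + L k' k')) * sg ((L + L.flip) k k')‖
        ≤ Real.sqrt (N ^ 3 * R) := by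
    intro z
    apply Real.le_sqrt_of_sq_le
    have := bil_bound (L + L.flip) (fun x y => by
      simp only [LinearMap.add_apply, LinearMap.flip_apply]; rw [add_comm])
      (fun k => b k * conj (c (z + k)) * sg (L z k + L k k))
      (fun k' => conj (b k') * c (z + k') * sg (L z k' + L k' k'))
      (fun x => by
        rw [norm_mul, norm_mul, norm_sg, mul_one, RCLike.norm_conj]
        exact mul_le_one₀ (hb _) (norm_nonneg _) (hc _))
      (fun x => by
        rw [norm_mul, norm_mul, norm_sg, mul_one, RCLike.norm_conj]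
        exact mul_le_one₀ (hb _) (norm_nonneg _) (hc _))
    rw [hR'] at this
    exact this
  have h4 : ∑ h, ‖∑ k, b k * c (h + k) * sg (L h k)‖ ^ 2 ≤ N * Real.sqrt (N ^ 3 * R) := by
    have h1 : ∑ h, ‖∑ k, b k * c (h + k) * sg (L h k)‖ ^ 2
        = ‖((∑ h, ‖∑ k, b k * c (h + k) * sg (L h k)‖ ^ 2 : ℝ) : ℂ)‖ := by
      rw [Complex.norm_real, Real.norm_of_nonneg]
      positivity
    rw [h1, e2]
    refine (norm_sum_le _ _).trans ((Finset.sum_le_sum fun z _ => h3 z).trans ?_)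
    rw [Finset.sum_const, nsmul_eq_mul, Finset.card_univ]
  have h5 : ‖∑ h, ∑ k, a h * b k * c (h + k) * sg (L h k)‖ ^ 2
      ≤ N * (N * Real.sqrt (N ^ 3 * R)) := by
    rw [e1]
    refine (cs_bounded _ _ ha).trans ?_
    gcongr
  have hR0 : 0 ≤ R := Nat.cast_nonneg _
  have hN0 : 0 ≤ N := Nat.cast_nonneg _
  calc ‖∑ h, ∑ k, a h * b k * c (h + k) * sg (L h k)‖ ^ 4
      = (‖∑ h, ∑ k, a h * b k * c (h + k) * sg (L h k)‖ ^ 2) ^ 2 := by ring
    _ ≤ (N * (N * Real.sqrt (N ^ 3 * R))) ^ 2 := by gcongr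
    _ = N ^ 4 * Real.sqrt (N ^ 3 * R) ^ 2 := by ring
    _ = N ^ 7 * R := by
        rw [Real.sq_sqrt (by positivity)]
        ring

end

end Pool.Agent.H19.SQP
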