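import Mathlib
import Pool.Agent.H19.SQP.Pr

/-!
# Almost cocycles are close to cocycles (section 8d)
-/

namespace Pool.Agent.H19.SQP

section

variable {H A : Type*} [AddCommGroup H] [Fintype H] [AddCommGroup A]

/-- The cocycle relation fails. -/
def CocBad (Φ : H → H → A) (t : H × H × H) : Prop :=
  Φ t.1 t.2.1 + Φ (t.1 + t.2.1) t.2.2 ≠ Φ t.2.1 t.2.2 + Φ t.1 (t.2.1 + t.2.2)

omit [Fintype H] in
lemma not_cocBad {Φ : H → H → A} {x y z : H} (h : ¬ CocBad Φ (x, y, z)) :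
    Φ x y + Φ (x + y) z = Φ y z + Φ x (y + z) := not_not.mp h

/-- A pointwise combination. -/
def cocG (Φ : H → H → A) (y r x : H) : A := Φ r x + Φ (y - r) (x + r)

variable {Φ : H → H → A} {ε : ℝ}

lemma cocG_diff (h : pr (CocBad Φ) ≤ ε) (y : H) :
    pr (fun t : H × H × H => cocG Φ y t.1 t.2.2 - cocG Φ y (t.1 + t.2.1) t.2.2
      ≠ Φ t.2.1 t.1 - Φ (y - t.1 - t.2.1) t.2.1) ≤ ε + ε := by
  have e1 : pr (fun t : H × H × H => CocBad Φ (t.2.1, t.1, t.2.2)) ≤ ε := by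
    rw [pr_self (fun t : H × H × H => (t.2.1, t.1, t.2.2)) ?_ (CocBad Φ)]
    · exact h
    · rintro ⟨r, k, x⟩ ⟨r', k', x'⟩ hh
      simp only [Prod.mk.injEq] at hh ⊢
      exact ⟨hh.2.1, hh.1, hh.2.2⟩
  have e2 : pr (fun t : H × H × H => CocBad Φ (y - t.1 - t.2.1, t.2.1, t.2.2 + t.1)) ≤ ε := by
    rw [pr_self (fun t : H × H × H => (y - t.1 - t.2.1, t.2.1, t.2.2 + t.1)) ?_ (CocBad Φ)]
    · exact h
    · rintro ⟨r, k, x⟩ ⟨r', k', x'⟩ hh
      simp only [Prod.mk.injEq] at hh ⊢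
      obtain ⟨h1, h2, h3⟩ := hh
      subst h2
      have : r = r' := by simpa using h1
      subst this
      exact ⟨rfl, rfl, by simpa using h3⟩
  refine pr_or_le ?_ e1 e2
  rintro ⟨r, k, x⟩ hne
  by_contra hcon
  push Not at hcon
  apply hne
  have h1 := not_cocBad hcon.1
  have h2 := not_cocBad hcon.2
  simp only at h1 h2 ⊢
  unfold cocG
  have a1 : y - r - k + k = y - r := by abel
  have a2 : k + r = r + k := by abel
  have a3 : y - (r + k) = y - r - k := by abel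
  have a4 : r + x = x + r := by abel
  have a5 : k + (x + r) = x + (r + k) := by abel
  rw [a1, a5] at h2
  rw [a2, a4] at h1
  rw [a3]
  have b1 : Φ r x = Φ k r + Φ (r + k) x - Φ k (x + r) := by rw [h1]; abel
  have b2 : Φ (y - r) (x + r) = Φ k (x + r) + Φ (y - r - k) (x + (r + k))
      - Φ (y - r - k) k := by rw [← h2]; abel
  rw [b1, b2]
  abel

lemma cocG_add (h : pr (CocBad Φ) ≤ ε) (y z : H) :
    pr (fun t : H × H × H => cocG Φ z t.1 t.2.2 + cocG Φ y t.2.1 (t.2.2 + z)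
      - cocG Φ (y + z) (t.1 + t.2.1) t.2.2
      ≠ Φ t.2.1 t.1 + Φ (y - t.2.1) (z - t.1) + Φ t.2.1 (z - t.1) - Φ (z - t.1) t.2.1)
      ≤ ε + ε + (ε + ε) := by
  have e1 : pr (fun t : H × H × H => CocBad Φ (t.2.1, t.1, t.2.2)) ≤ ε := by
    rw [pr_self (fun t : H × H × H => (t.2.1, t.1, t.2.2)) ?_ (CocBad Φ)]
    · exact h
    · rintro ⟨r, k, x⟩ ⟨r', k', x'⟩ hh
      simp only [Prod.mk.injEq] at hh ⊢
      exact ⟨hh.2.1, hh.1, hh.2.2⟩
  have e2 : pr (fun t : H × H × H =>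
      CocBad Φ (y - t.2.1, z - t.1, t.2.2 + t.1 + t.2.1)) ≤ ε := by
    rw [pr_self (fun t : H × H × H => (y - t.2.1, z - t.1, t.2.2 + t.1 + t.2.1)) ?_ (CocBad Φ)]
    · exact h
    · rintro ⟨r, k, x⟩ ⟨r', k', x'⟩ hh
      simp only [Prod.mk.injEq] at hh ⊢
      obtain ⟨h1, h2, h3⟩ := hh
      have : r = r' := by simpa using h2
      subst this
      have : k = k' := by simpa using h1
      subst this
      exact ⟨rfl, rfl, by simpa using h3⟩
  have e3 : pr (fun t : H × H × H =>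
      CocBad Φ (t.2.1, z - t.1, t.2.2 + t.1)) ≤ ε := by
    rw [pr_self (fun t : H × H × H => (t.2.1, z - t.1, t.2.2 + t.1)) ?_ (CocBad Φ)]
    · exact h
    · rintro ⟨r, k, x⟩ ⟨r', k', x'⟩ hh
      simp only [Prod.mk.injEq] at hh ⊢
      obtain ⟨h1, h2, h3⟩ := hh
      have : r = r' := by simpa using h2
      subst this
      subst h1
      exact ⟨rfl, rfl, by simpa using h3⟩
  have e4 : pr (fun t : H × H × H =>
      CocBad Φ (z - t.1, t.2.1, t.2.2 + t.1)) ≤ ε := by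
    rw [pr_self (fun t : H × H × H => (z - t.1, t.2.1, t.2.2 + t.1)) ?_ (CocBad Φ)]
    · exact h
    · rintro ⟨r, k, x⟩ ⟨r', k', x'⟩ hh
      simp only [Prod.mk.injEq] at hh ⊢
      obtain ⟨h1, h2, h3⟩ := hh
      have : r = r' := by simpa using h1
      subst this
      subst h2
      exact ⟨rfl, rfl, by simpa using h3⟩
  refine pr_or_le ?_ (pr_or_le (fun a h => h) e1 e2) (pr_or_le (fun a h => h) e3 e4)
  rintro ⟨r, r', x⟩ hne
  by_contra hcon
  push Not at hcon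
  apply hne
  obtain ⟨⟨h1, h2⟩, h3, h4⟩ := hcon
  have h1 := not_cocBad h1
  have h2 := not_cocBad h2
  have h3 := not_cocBad h3
  have h4 := not_cocBad h4
  simp only at h1 h2 h3 h4 ⊢
  unfold cocG
  have a1 : y - r' + (z - r) = y + z - (r + r') := by abel
  have a2 : x + r + r' = x + (r + r') := by abel
  have a3 : z - r + (x + (r + r')) = x + z + r' := by abel
  have a4 : z - r + (x + r) = x + z := by abel
  have a5 : r' + (x + r) = x + (r + r') := by abel
  have a6 : z - r + r' = r' + (z - r) := by abel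
  have a7 : r' + r = r + r' := by abel
  have a8 : r + x = x + r := by abel
  rw [a7, a8] at h1
  rw [a1, a2, a3] at h2
  rw [a4] at h3
  rw [a6, a5] at h4
  have b1 : Φ r x = Φ r' r + Φ (r + r') x - Φ r' (x + r) := by rw [h1]; abel
  have b2 : Φ (y - r') (x + z + r') = Φ (y - r') (z - r) + Φ (y + z - (r + r')) (x + (r + r'))
      - Φ (z - r) (x + (r + r')) := by rw [h2]; abel
  have b3 : Φ (z - r) (x + r) = Φ r' (z - r) + Φ (r' + (z - r)) (x + r) - Φ r' (x + z) := by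
    rw [h3]; abel
  have b4 : Φ (r' + (z - r)) (x + r) = Φ r' (x + r) + Φ (z - r) (x + (r + r'))
      - Φ (z - r) r' := by rw [← h4]; abel
  rw [b1, b2, b3, b4]
  abel

lemma cocG_phi (h : pr (CocBad Φ) ≤ ε) :
    pr (fun t : H × H × H => cocG Φ t.1 t.2.1 t.2.2 ≠ Φ (t.1 - t.2.1) t.2.1 + Φ t.1 t.2.2)
      ≤ ε := by
  have e1 : pr (fun t : H × H × H => CocBad Φ (t.1 - t.2.1, t.2.1, t.2.2)) ≤ ε := by
    rw [pr_self (fun t : H × H × H => (t.1 - t.2.1, t.2.1, t.2.2)) ?_ (CocBad Φ)]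
    · exact h
    · rintro ⟨r, k, x⟩ ⟨r', k', x'⟩ hh
      simp only [Prod.mk.injEq] at hh ⊢
      obtain ⟨h1, h2, h3⟩ := hh
      subst h2
      exact ⟨by simpa using h1, rfl, h3⟩
  refine (pr_mono ?_).trans e1
  rintro ⟨y, r, x⟩ hne
  by_contra hcon
  apply hne
  have h1 := not_cocBad hcon
  simp only at h1 ⊢
  unfold cocG
  have a1 : y - r + r = y := by abel
  have a2 : r + x = x + r := by abel
  rw [a1, a2] at h1
  rw [h1]

/-- Functions `Φ` satisfying the cocycle relation for 99% of the triples are close to exact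
cocycles, up to a coboundary. -/
theorem cocycle_99 (hε : ε < 1 / 40) (h : pr (CocBad Φ) ≤ ε) :
    ∃ (D : H → H → A) (c : H → A), (∀ x y z, D x y + D (x + y) z = D y z + D x (y + z)) ∧
      pr (fun t : H × H => Φ t.1 t.2 ≠ D t.1 t.2 - c t.1 - c t.2 + c (t.1 + t.2)) ≤ 20 * ε := by
  classical
  have hε0 : 0 ≤ ε := (pr_nonneg _).trans h
  -- step 2: choice of the base point `r y`
  have s2 : ∀ y : H, ∃ r : H, pr (fun t : H × H => cocG Φ y r t.2 - cocG Φ y (r + t.1) t.2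
      ≠ Φ t.1 r - Φ (y - r - t.1) t.1) ≤ ε + ε := by
    intro y
    obtain ⟨r, hr⟩ := exists_le_pr (fun t : H × H × H => cocG Φ y t.1 t.2.2
      - cocG Φ y (t.1 + t.2.1) t.2.2 ≠ Φ t.2.1 t.1 - Φ (y - t.1 - t.2.1) t.2.1)
    exact ⟨r, hr.trans (cocG_diff h y)⟩
  choose rr hrr using s2
  set g : H → H → A := fun y x => cocG Φ y (rr y) x with hg
  set e : H → H → A := fun y r' => Φ (r' - rr y) (rr y) - Φ (y - r') (r' - rr y) with he
  have s3 : ∀ y : H, pr (fun t : H × H => g y t.2 ≠ cocG Φ y t.1 t.2 + e y t.1) ≤ ε + ε := by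
    intro y
    have h1 := hrr y
    rw [← pr_self (fun t : H × H => (t.1 - rr y, t.2)) ?_ (fun t : H × H =>
      cocG Φ y (rr y) t.2 - cocG Φ y (rr y + t.1) t.2 ≠ Φ t.1 (rr y) - Φ (y - rr y - t.1) t.1)] at h1
    · refine (pr_mono ?_).trans h1
      rintro ⟨r', x⟩ hne hcon
      apply hne
      simp only at hcon ⊢
      have a1 : rr y + (r' - rr y) = r' := by abel
      have a2 : y - rr y - (r' - rr y) = y - r' := by abel
      rw [a1, a2] at hcon
      change cocG Φ y (rr y) x = _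
      rw [sub_eq_iff_eq_add] at hcon
      rw [hcon]
      exact add_comm _ _
    · rintro ⟨r, x⟩ ⟨r', x'⟩ hh
      simp only [Prod.mk.injEq] at hh ⊢
      exact ⟨by simpa using hh.1, hh.2⟩
  -- step 3: the cocycle `D`
  have s4 : ∀ y z : H, ∃ d : A, pr (fun x : H => g z x + g y (x + z) - g (y + z) x ≠ d)
      ≤ 10 * ε := by
    intro y z
    have q1 := cocG_add h y z
    have q2 : pr (fun t : H × H × H => g z t.2.2 ≠ cocG Φ z t.1 t.2.2 + e z t.1) ≤ ε + ε := by
      have := pr_marg (α := H) (β := H × H) (fun t => (t.2.1, t.1, t.2.2)) ?_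
        (fun t : H × H => g z t.2 ≠ cocG Φ z t.1 t.2 + e z t.1)
      · rw [this]
        exact s3 z
      · rintro ⟨r, k, x⟩ ⟨r', k', x'⟩ hh
        simp only [Prod.mk.injEq] at hh ⊢
        exact ⟨hh.2.1, hh.1, hh.2.2⟩
    have q3 : pr (fun t : H × H × H => g y (t.2.2 + z) ≠ cocG Φ y t.2.1 (t.2.2 + z) + e y t.2.1)
        ≤ ε + ε := by
      have := pr_marg (α := H) (β := H × H) (fun t => (t.1, t.2.1, t.2.2 + z)) ?_
        (fun t : H × H => g y t.2 ≠ cocG Φ y t.1 t.2 + e y t.1)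
      · rw [this]
        exact s3 y
      · rintro ⟨r, k, x⟩ ⟨r', k', x'⟩ hh
        simp only [Prod.mk.injEq] at hh ⊢
        exact ⟨hh.1, hh.2.1, by simpa using hh.2.2⟩
    have q4 : pr (fun t : H × H × H => g (y + z) t.2.2
        ≠ cocG Φ (y + z) (t.1 + t.2.1) t.2.2 + e (y + z) (t.1 + t.2.1)) ≤ ε + ε := by
      have := pr_marg (α := H) (β := H × H) (fun t => (t.1, t.1 + t.2.1, t.2.2)) ?_
        (fun t : H × H => g (y + z) t.2 ≠ cocG Φ (y + z) t.1 t.2 + e (y + z) t.1)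
      · rw [this]
        exact s3 (y + z)
      · rintro ⟨r, k, x⟩ ⟨r', k', x'⟩ hh
        simp only [Prod.mk.injEq] at hh ⊢
        obtain ⟨h1, h2, h3⟩ := hh
        subst h1
        exact ⟨rfl, by simpa using h2, h3⟩
    set W : H → H → A := fun r r' => Φ r' r + Φ (y - r') (z - r) + Φ r' (z - r) - Φ (z - r) r'
      + e z r + e y r' - e (y + z) (r + r') with hW
    have q5 : pr (fun t : H × H × H => g z t.2.2 + g y (t.2.2 + z) - g (y + z) t.2.2
        ≠ W t.1 t.2.1) ≤ 10 * ε := by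
      have : (10 : ℝ) * ε = (ε + ε + (ε + ε)) + ((ε + ε) + ((ε + ε) + (ε + ε))) := by ring
      rw [this]
      refine pr_or_le ?_ q1 (pr_or_le (fun a h => h) q2 (pr_or_le (fun a h => h) q3 q4))
      rintro ⟨r, r', x⟩ hne
      by_contra hcon
      push Not at hcon
      obtain ⟨h1, h2, h3, h4⟩ := hcon
      apply hne
      simp only at h1 h2 h3 h4 ⊢
      rw [h2, h3, h4, hW]
      rw [sub_eq_iff_eq_add] at h1
      simp only
      have : cocG Φ z r x + e z r + (cocG Φ y r' (x + z) + e y r')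
          = (cocG Φ z r x + cocG Φ y r' (x + z)) + (e z r + e y r') := by abel
      rw [this, h1]
      abel
    rw [← pr_self (fun t : H × H × H => (t.1, t.2.1, t.2.2)) (fun a b h => by simpa using h)] at q5
    obtain ⟨r, hr⟩ := exists_le_pr (fun t : H × H × H => g z t.2.2 + g y (t.2.2 + z)
      - g (y + z) t.2.2 ≠ W t.1 t.2.1)
    obtain ⟨r', hr'⟩ := exists_le_pr (fun t : H × H => g z t.2 + g y (t.2 + z)
      - g (y + z) t.2 ≠ W r t.1)
    exact ⟨W r r', (hr'.trans hr).trans q5⟩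
  choose D hD using s4
  -- step 5: the function `c`
  have s5 : pr (fun t : H × H × H => g t.1 t.2.2 ≠ Φ t.1 t.2.2
      + (Φ (t.1 - t.2.1) t.2.1 + e t.1 t.2.1)) ≤ (ε + ε) + ε := by
    have q1 : pr (fun t : H × H × H => g t.1 t.2.2 ≠ cocG Φ t.1 t.2.1 t.2.2 + e t.1 t.2.1)
        ≤ ε + ε := by
      refine pr_le_of_forall _ (by positivity) fun y => ?_
      exact s3 y
    refine pr_or_le ?_ q1 (cocG_phi h)
    rintro ⟨y, r, x⟩ hne
    by_contra hcon
    push Not at hcon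
    apply hne
    obtain ⟨h1, h2⟩ := hcon
    simp only at h1 h2 ⊢
    rw [h1, h2]
    abel
  obtain ⟨ρ, hρ⟩ := exists_choice (fun t : H × H × H => g t.1 t.2.2 ≠ Φ t.1 t.2.2
      + (Φ (t.1 - t.2.1) t.2.1 + e t.1 t.2.1))
  set c : H → A := fun y => Φ (y - ρ y) (ρ y) + e y (ρ y) with hc
  have s6 : pr (fun t : H × H => g t.1 t.2 ≠ Φ t.1 t.2 + c t.1) ≤ 3 * ε := by
    have : (3 : ℝ) * ε = (ε + ε) + ε := by ring
    rw [this]
    exact hρ.trans s5
  refine ⟨D, c, ?_, ?_⟩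
  · intro x1 y z
    have r1 := hD y z
    have r2 := hD x1 (y + z)
    have r3 := hD (x1 + y) z
    have r4 : pr (fun x : H => g y (x + z) + g x1 (x + z + y) - g (x1 + y) (x + z) ≠ D x1 y)
        ≤ 10 * ε := by
      rw [pr_self (fun x : H => x + z) (add_left_injective z)
        (fun x => g y x + g x1 (x + y) - g (x1 + y) x ≠ D x1 y)]
      exact hD x1 y
    have r5 : pr (fun x : H => (g z x + g y (x + z) - g (y + z) x ≠ D y z ∨
        g (y + z) x + g x1 (x + (y + z)) - g (x1 + (y + z)) x ≠ D x1 (y + z)) ∨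
        (g z x + g (x1 + y) (x + z) - g (x1 + y + z) x ≠ D (x1 + y) z ∨
        g y (x + z) + g x1 (x + z + y) - g (x1 + y) (x + z) ≠ D x1 y)) ≤
        (10 * ε + 10 * ε) + (10 * ε + 10 * ε) :=
      pr_or_le (fun a h => h) (pr_or_le (fun a h => h) r1 r2) (pr_or_le (fun a h => h) r3 r4)
    obtain ⟨x, hx⟩ := exists_not (lt_of_le_of_lt r5 (by linarith))
    push Not at hx
    obtain ⟨⟨h1, h2⟩, h3, h4⟩ := hx
    rw [← h1, ← h2, ← h3, ← h4]
    have a1 : x + z + y = x + (y + z) := by abel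
    have a2 : x1 + y + z = x1 + (y + z) := by abel
    rw [a1, a2]
    abel
  · have t1 : pr (fun t : H × H × H => g t.2.1 t.2.2 + g t.1 (t.2.2 + t.2.1)
        - g (t.1 + t.2.1) t.2.2 ≠ D t.1 t.2.1) ≤ 10 * ε := by
      refine pr_le_of_forall _ (by positivity) fun y => ?_
      refine pr_le_of_forall _ (by positivity) fun z => ?_
      exact hD y z
    have t2 : pr (fun t : H × H × H => g t.2.1 t.2.2 ≠ Φ t.2.1 t.2.2 + c t.2.1) ≤ 3 * ε := by
      rw [pr_snd (fun t : H × H => g t.1 t.2 ≠ Φ t.1 t.2 + c t.1)]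
      exact s6
    have t3 : pr (fun t : H × H × H => g t.1 (t.2.2 + t.2.1)
        ≠ Φ t.1 (t.2.2 + t.2.1) + c t.1) ≤ 3 * ε := by
      have := pr_marg (α := H) (β := H × H) (fun t => (t.2.1, t.1, t.2.2 + t.2.1)) ?_
        (fun t : H × H => g t.1 t.2 ≠ Φ t.1 t.2 + c t.1)
      · rw [this]
        exact s6
      · rintro ⟨r, k, x⟩ ⟨r', k', x'⟩ hh
        simp only [Prod.mk.injEq] at hh ⊢
        obtain ⟨h1, h2, h3⟩ := hh
        subst h1
        exact ⟨h2, rfl, by simpa using h3⟩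
    have t4 : pr (fun t : H × H × H => g (t.1 + t.2.1) t.2.2
        ≠ Φ (t.1 + t.2.1) t.2.2 + c (t.1 + t.2.1)) ≤ 3 * ε := by
      have := pr_marg (α := H) (β := H × H) (fun t => (t.1, t.1 + t.2.1, t.2.2)) ?_
        (fun t : H × H => g t.1 t.2 ≠ Φ t.1 t.2 + c t.1)
      · rw [this]
        exact s6
      · rintro ⟨r, k, x⟩ ⟨r', k', x'⟩ hh
        simp only [Prod.mk.injEq] at hh ⊢
        obtain ⟨h1, h2, h3⟩ := hh
        subst h1
        exact ⟨rfl, by simpa using h2, h3⟩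
    have t5 : pr (fun t : H × H × H => Φ t.1 t.2.1 ≠ D t.1 t.2.1 - c t.1 - c t.2.1
        + c (t.1 + t.2.1)) ≤ 20 * ε := by
      have : (20 : ℝ) * ε = 10 * ε + (3 * ε + (3 * ε + (3 * ε + ε))) := by ring
      rw [this]
      refine pr_or_le ?_ t1 (pr_or_le (fun a h => h) t2 (pr_or_le (fun a h => h) t3
        (pr_or_le (fun a h => h) t4 h)))
      rintro ⟨y, z, x⟩ hne
      by_contra hcon
      push Not at hcon
      obtain ⟨h1, h2, h3, h4, h5⟩ := hcon
      apply hne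
      have h5 := not_cocBad h5
      simp only at h1 h2 h3 h4 h5 ⊢
      rw [← h1, h2, h3, h4]
      have a1 : z + x = x + z := by abel
      rw [a1] at h5
      have b1 : Φ y z = Φ z x + Φ y (x + z) - Φ (y + z) x := by rw [← h5]; abel
      rw [b1]
      abel
    have t6 : pr (fun t : H × H => Φ t.1 t.2 ≠ D t.1 t.2 - c t.1 - c t.2 + c (t.1 + t.2))
        = pr (fun t : H × H × H => Φ t.1 t.2.1 ≠ D t.1 t.2.1 - c t.1 - c t.2.1
        + c (t.1 + t.2.1)) := by
      rw [← pr_equiv (Equiv.prodAssoc H H H) (fun t : H × H × H => Φ t.1 t.2.1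
        ≠ D t.1 t.2.1 - c t.1 - c t.2.1 + c (t.1 + t.2.1))]
      rw [← pr_equiv (Equiv.prodComm H (H × H))]
      exact (pr_snd (fun t : H × H => Φ t.1 t.2 ≠ D t.1 t.2 - c t.1 - c t.2
        + c (t.1 + t.2))).symm
    rw [t6]
    exact t5

end

end Pool.Agent.H19.SQP
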